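import Mathlib

/-!
# Correspondences, the Gromov-Hausdorff distance, and finite integer-valued metric spaces
-/

set_option autoImplicit false

namespace Pool.Agent.Q183.GH

open Set

/-- A correspondence between `X` and `Y`: both projections of `S` are surjective. -/
def IsCorrespondence {X Y : Type*} (S : Set (X × Y)) : Prop :=
  Prod.fst '' S = univ ∧ Prod.snd '' S = univ

/-- The distortion of `S ⊆ X × Y`. -/
noncomputable def distortion {X Y : Type*} [MetricSpace X] [MetricSpace Y] (S : Set (X × Y)) : ℝ :=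
  sSup {r : ℝ | ∃ p ∈ S, ∃ q ∈ S, r = |dist p.1 q.1 - dist p.2 q.2|}

/-- The Gromov-Hausdorff distance: half of the infimum of the distortions of correspondences. -/
noncomputable def dGH (X Y : Type*) [MetricSpace X] [MetricSpace Y] : ℝ :=
  1 / 2 * sInf {r : ℝ | ∃ S : Set (X × Y), IsCorrespondence S ∧ r = distortion S}

/-- An optimal correspondence. -/
def IsOptimal {X Y : Type*} [MetricSpace X] [MetricSpace Y] (S : Set (X × Y)) : Prop :=
  IsCorrespondence S ∧ distortion S = 2 * dGH X Y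

/-- The projection of `R ⊆ X₁ × X₂ × X₃` to `X₁ × X₂`. -/
def e12 {X₁ X₂ X₃ : Type*} (R : Set (X₁ × X₂ × X₃)) : Set (X₁ × X₂) :=
  (fun p => (p.1, p.2.1)) '' R

/-- The projection of `R ⊆ X₁ × X₂ × X₃` to `X₁ × X₃`. -/
def e13 {X₁ X₂ X₃ : Type*} (R : Set (X₁ × X₂ × X₃)) : Set (X₁ × X₃) :=
  (fun p => (p.1, p.2.2)) '' R

/-- The projection of `R ⊆ X₁ × X₂ × X₃` to `X₂ × X₃`. -/
def e23 {X₁ X₂ X₃ : Type*} (R : Set (X₁ × X₂ × X₃)) : Set (X₂ × X₃) :=
  (fun p => (p.2.1, p.2.2)) '' R

section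

variable {X Y : Type*}

lemma IsCorrespondence.left {S : Set (X × Y)} (h : IsCorrespondence S) (x : X) :
    ∃ y, (x, y) ∈ S := by
  have : x ∈ Prod.fst '' S := by rw [h.1]; trivial
  obtain ⟨p, hp, rfl⟩ := this
  exact ⟨p.2, hp⟩

lemma IsCorrespondence.right {S : Set (X × Y)} (h : IsCorrespondence S) (y : Y) :
    ∃ x, (x, y) ∈ S := by
  have : y ∈ Prod.snd '' S := by rw [h.2]; trivial
  obtain ⟨p, hp, rfl⟩ := this
  exact ⟨p.1, hp⟩

lemma isCorrespondence_of {S : Set (X × Y)} (h : ∀ x, ∃ y, (x, y) ∈ S)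
    (h' : ∀ y, ∃ x, (x, y) ∈ S) : IsCorrespondence S := by
  refine ⟨eq_univ_of_forall fun x => ?_, eq_univ_of_forall fun y => ?_⟩
  · obtain ⟨y, hy⟩ := h x
    exact ⟨(x, y), hy, rfl⟩
  · obtain ⟨x, hx⟩ := h' y
    exact ⟨(x, y), hx, rfl⟩

variable [MetricSpace X] [MetricSpace Y]

lemma distortion_nonneg (S : Set (X × Y)) : 0 ≤ distortion S := by
  refine Real.sSup_nonneg ?_
  rintro r ⟨p, _, q, _, rfl⟩
  exact abs_nonneg _

lemma distortion_le {S : Set (X × Y)} {c : ℝ} (hc : 0 ≤ c)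
    (h : ∀ x y x' y', (x, y) ∈ S → (x', y') ∈ S → |dist x x' - dist y y'| ≤ c) :
    distortion S ≤ c := by
  refine Real.sSup_le ?_ hc
  rintro r ⟨p, hp, q, hq, rfl⟩
  exact h _ _ _ _ hp hq

lemma le_distortion [CompactSpace X] [CompactSpace Y] {S : Set (X × Y)} {x x' : X} {y y' : Y}
    (h : (x, y) ∈ S) (h' : (x', y') ∈ S) : |dist x x' - dist y y'| ≤ distortion S := by
  refine le_csSup ⟨Metric.diam (univ : Set X) + Metric.diam (univ : Set Y), ?_⟩
    ⟨(x, y), h, (x', y'), h', rfl⟩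
  rintro r ⟨p, _, q, _, rfl⟩
  have h1 := Metric.dist_le_diam_of_mem isCompact_univ.isBounded (mem_univ p.1) (mem_univ q.1)
  have h2 := Metric.dist_le_diam_of_mem isCompact_univ.isBounded (mem_univ p.2) (mem_univ q.2)
  have h3 := dist_nonneg (x := p.1) (y := q.1)
  have h4 := dist_nonneg (x := p.2) (y := q.2)
  rw [abs_le]
  constructor <;> linarith

lemma dGH_le {S : Set (X × Y)} (h : IsCorrespondence S) {c : ℝ} (hc : distortion S ≤ 2 * c) :
    dGH X Y ≤ c := by
  have : sInf {r : ℝ | ∃ S : Set (X × Y), IsCorrespondence S ∧ r = distortion S} ≤ 2 * c := by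
    have hb : BddBelow {r : ℝ | ∃ S : Set (X × Y), IsCorrespondence S ∧ r = distortion S} := by
      refine ⟨0, ?_⟩
      rintro r ⟨S, _, rfl⟩
      exact distortion_nonneg S
    exact (csInf_le hb ⟨S, h, rfl⟩).trans hc
  unfold dGH
  linarith

lemma le_dGH {c : ℝ} (hne : ∃ S : Set (X × Y), IsCorrespondence S)
    (h : ∀ S : Set (X × Y), IsCorrespondence S → 2 * c ≤ distortion S) :
    c ≤ dGH X Y := by
  have : 2 * c ≤ sInf {r : ℝ | ∃ S : Set (X × Y), IsCorrespondence S ∧ r = distortion S} := by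
    refine le_csInf ?_ ?_
    · obtain ⟨S, hS⟩ := hne
      exact ⟨_, S, hS, rfl⟩
    · rintro r ⟨S, hS, rfl⟩
      exact h S hS
  unfold dGH
  linarith

end

/-! ### Finite metric spaces with integer distances -/

/-- An integer-valued metric on `{0, …, n-1}`. -/
structure IntMetric (n : ℕ) where
  D : Fin n → Fin n → ℤ
  self : ∀ i, D i i = 0
  symm : ∀ i j, D i j = D j i
  tri : ∀ i j k, D i k ≤ D i j + D j k
  pos : ∀ i j, D i j = 0 → i = j

/-- The metric space defined by an integer-valued metric on `{0, …, n-1}`. -/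
structure Pt {n : ℕ} (M : IntMetric n) where
  val : Fin n

lemma Pt.ext' {n : ℕ} {M : IntMetric n} {x y : Pt M} (h : x.val = y.val) : x = y := by
  cases x
  cases y
  simp only at h
  rw [h]

noncomputable instance {n : ℕ} (M : IntMetric n) : MetricSpace (Pt M) where
  dist x y := (M.D x.val y.val : ℝ)
  dist_self x := by
    simp [M.self]
  dist_comm x y := by
    simp [M.symm x.val y.val]
  dist_triangle x y z := by
    exact_mod_cast M.tri x.val y.val z.val
  eq_of_dist_eq_zero {x y} h := Pt.ext' (M.pos x.val y.val (by exact_mod_cast h))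

lemma dist_eq {n : ℕ} {M : IntMetric n} (x y : Pt M) : dist x y = (M.D x.val y.val : ℝ) := rfl

instance {n : ℕ} (M : IntMetric n) : Finite (Pt M) :=
  Finite.of_injective Pt.val fun _ _ h => Pt.ext' h

instance {n : ℕ} (M : IntMetric (n + 1)) : Nonempty (Pt M) := ⟨⟨0⟩⟩

instance {n : ℕ} (M : IntMetric n) : CompactSpace (Pt M) := Finite.compactSpace

/-- The graph of a map between two such spaces. -/
def graph {n : ℕ} (M M' : IntMetric n) (f : Fin n → Fin n) : Set (Pt M × Pt M') :=
  {p | p.2.val = f p.1.val}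

/-- The integer distortion of a map is at most `c`. -/
abbrev Le {n : ℕ} (M M' : IntMetric n) (c : ℤ) (f : Fin n → Fin n) : Prop :=
  ∀ i j, |M.D i j - M'.D (f i) (f j)| ≤ c

lemma isCorrespondence_graph {n : ℕ} (M M' : IntMetric n) (f : Fin n → Fin n)
    (hf : ∀ j, ∃ i, f i = j) : IsCorrespondence (graph M M' f) :=
  isCorrespondence_of (fun x => ⟨⟨f x.val⟩, rfl⟩) fun y => by
    obtain ⟨i, hi⟩ := hf y.val
    exact ⟨⟨i⟩, hi.symm⟩

lemma distortion_graph_le {n : ℕ} (M M' : IntMetric n) (f : Fin n → Fin n) (c : ℤ) (hc : 0 ≤ c)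
    (h : Le M M' c f) : distortion (graph M M' f) ≤ c := by
  refine distortion_le (by exact_mod_cast hc) ?_
  intro x y x' y' hy hy'
  have hy2 : y.val = f x.val := hy
  have hy2' : y'.val = f x'.val := hy'
  rw [dist_eq, dist_eq, hy2, hy2']
  exact_mod_cast h x.val x'.val

/-- If the only map of integer distortion at most `c` is `g`, then every relation with surjective
first projection and real distortion less than `c + 1` is contained in the graph of `g`. -/
lemma subset_graph {n : ℕ} (M M' : IntMetric n) (g : Fin n → Fin n) (c : ℤ)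
    (h : ∀ f : Fin n → Fin n, Le M M' c f → f = g) (S : Set (Pt M × Pt M'))
    (hS : ∀ x, ∃ y, (x, y) ∈ S)
    (hd : ∀ x y x' y', (x, y) ∈ S → (x', y') ∈ S → |dist x x' - dist y y'| < c + 1) :
    S ⊆ graph M M' g := by
  classical
  rintro ⟨x, y⟩ hxy
  choose f hf using hS
  let f' : Fin n → Fin n := fun z => if z = x.val then y.val else (f ⟨z⟩).val
  have hf' : ∀ z : Fin n, ((⟨z⟩ : Pt M), (⟨f' z⟩ : Pt M')) ∈ S := by
    intro z
    by_cases hz : z = x.val
    · have h1 : f' z = y.val := if_pos hz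
      rw [h1, hz]
      exact hxy
    · have h1 : f' z = (f ⟨z⟩).val := if_neg hz
      rw [h1]
      exact hf ⟨z⟩
  have h1 : f' = g := by
    refine h f' fun i j => ?_
    have h2 := hd _ _ _ _ (hf' i) (hf' j)
    rw [dist_eq, dist_eq] at h2
    have h3 : |M.D i j - M'.D (f' i) (f' j)| < c + 1 := by exact_mod_cast h2
    omega
  have h2 : f' x.val = y.val := if_pos rfl
  change y.val = g x.val
  rw [← h1, h2]

lemma IsOptimal.subset_graph {n : ℕ} {M M' : IntMetric n} (g : Fin n → Fin n) (c : ℤ)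
    (h : ∀ f : Fin n → Fin n, Le M M' c f → f = g) (hg : ∀ j, ∃ i, g i = j) (hc : 0 ≤ c)
    (hgc : Le M M' c g) {S : Set (Pt M × Pt M')} (hS : IsOptimal S) : S ⊆ graph M M' g := by
  refine GH.subset_graph M M' g c h S hS.1.left fun x y x' y' hx hx' => ?_
  have h1 := le_distortion hx hx'
  have h2 := dGH_le (isCorrespondence_graph M M' g hg) (c := c / 2)
    ((distortion_graph_le M M' g c hc hgc).trans (by linarith))
  rw [hS.2] at h1
  linarith

end Pool.Agent.Q183.GH
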